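import Mathlib
import Pool.Agent.Y675.LN.Stm

set_option autoImplicit false
set_option linter.all false

/-! # Y675-LN GOOD -/

namespace Pool.Agent.Y447.LN.Good

open Pool.Agent.Y675.LN

theorem sq_dvd_mul {l X Y : ℕ} (hl : l.Prime) (h : l * l ∣ X * Y) (hn : ¬ (l ∣ X ∧ l ∣ Y)) :
    l * l ∣ X ∨ l * l ∣ Y := by
  by_cases hX : l ∣ X
  · left
    have hY : ¬ l ∣ Y := fun hY => hn ⟨hX, hY⟩
    have hc : Nat.Coprime (l * l) Y := by
      have h1 : Nat.Coprime l Y := (Nat.Prime.coprime_iff_not_dvd hl).2 hY
      exact Nat.Coprime.mul_left h1 h1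
    exact hc.dvd_of_dvd_mul_right h
  · right
    have hc : Nat.Coprime (l * l) X := by
      have h1 : Nat.Coprime l X := (Nat.Prime.coprime_iff_not_dvd hl).2 hX
      exact Nat.Coprime.mul_left h1 h1
    exact hc.dvd_of_dvd_mul_left h

theorem t : S_GOOD := by
  intro c g k M A hc h2c hM hg hK hcM hAM x hx2 hx1 hxS hDg hD2 hDab
  obtain ⟨a, b⟩ := x
  simp only at hx2 hx1 hxS hDab
  simp only [Dv] at hDg hD2
  have hk0 : 3 * k ≠ 0 := by
    rw [hK]
    exact mul_ne_zero (pow_ne_zero _ hc.ne') hg.ne_zero
  set K := 3 * k with hKdef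
  have hKb : 0 < K * b := Nat.mul_pos (Nat.pos_of_ne_zero hk0) hx2
  have hsub : a ^ 2 - K ^ 2 * b ^ 2 = (a - K * b) * (a + K * b) := by
    rw [← mul_pow, Nat.sq_sub_sq]
    exact mul_comm _ _
  have hle : K ^ 2 * b ^ 2 ≤ a ^ 2 := by
    rw [← mul_pow]
    exact Nat.pow_le_pow_left hx1.le 2
  set Fn := a * b * (a ^ 2 - K ^ 2 * b ^ 2) with hFn
  have hFfac : Fn = (a * b) * ((a - K * b) * (a + K * b)) := by rw [hFn, hsub]
  have hval : val g k (a, b) = g * Fn := by
    simp only [val, hFn, hKdef]
  -- congruence
  have hcast : ((Fn : ℕ) : ZMod M) = ((A : ℕ) : ZMod M) := by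
    have h1 := hxS.1
    simp only [F] at h1
    rw [← h1, hFn]
    push_cast [Nat.cast_sub hle]
    rw [hKdef]; push_cast; ring
  have hmod : Fn ≡ A [MOD M] := (ZMod.natCast_eq_natCast_iff _ _ _).1 hcast
  have hFpos : 0 < Fn := by
    rw [hFfac]
    have h1 : 0 < a - K * b := by omega
    have h2 : 0 < a := by omega
    positivity
  refine ⟨?_, ?_, ?_⟩
  · rw [hval, Nat.squarefree_iff_prime_squarefree]
    intro l hl hdvd
    have hgl : ¬ l * l ∣ g := by
      intro h
      exact (Nat.squarefree_iff_prime_squarefree.1 hg) l hl h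
    have hcase : l ∣ Fn := by
      by_contra hno
      have h1 : Nat.Coprime l Fn := (Nat.Prime.coprime_iff_not_dvd hl).2 hno
      exact hgl ((Nat.Coprime.mul_left h1 h1).dvd_of_dvd_mul_right hdvd)
    by_cases hlM : l ∣ M
    · have h1 : l ∣ A := ((Nat.ModEq.dvd_iff hmod hlM).1 hcase)
      have h2 : l ∣ Nat.gcd A M := Nat.dvd_gcd h1 hlM
      rw [hAM] at h2
      exact hl.one_lt.ne' (Nat.dvd_one.1 h2)
    · have hlc : ¬ l ∣ c := fun h => hlM (hcM l hl h)
      have hl2 : l ≠ 2 := by
        rintro rfl
        exact hlc h2c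
      by_cases hlg : l ∣ g
      · apply hDg l hl hlM hlg
        rw [hFfac] at hcase
        rcases (hl.dvd_mul).1 hcase with h | h
        · rcases (hl.dvd_mul).1 h with h | h
          · exact Or.inl h
          · exact Or.inr (Or.inl h)
        · rcases (hl.dvd_mul).1 h with h | h
          · exact Or.inr (Or.inr (Or.inl h))
          · exact Or.inr (Or.inr (Or.inr h))
      · have hlK : ¬ l ∣ K := by
          rw [hK]
          intro h
          rcases (hl.dvd_mul).1 h with h | h
          · exact hlc (hl.dvd_of_dvd_pow h)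
          · exact hlg h
        have hFl : l * l ∣ Fn := by
          have h1 : Nat.Coprime l g := (Nat.Prime.coprime_iff_not_dvd hl).2 hlg
          exact (Nat.Coprime.mul_left h1 h1).dvd_of_dvd_mul_left hdvd
        have hab : ¬ (l ∣ a ∧ l ∣ b) := hDab l hl hlM
        have hbK : l ∣ K * b → l ∣ b := fun h => by
          rcases (hl.dvd_mul).1 h with h | h
          · exact absurd h hlK
          · exact h
        -- divisors of pairs
        have hau : l ∣ a → l ∣ a - K * b → False := by
          intro h1 h2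
          have h3 : l ∣ K * b := by
            have := Nat.dvd_sub h1 h2
            have e : a - (a - K * b) = K * b := by omega
            rwa [e] at this
          exact hab ⟨h1, hbK h3⟩
        have hav : l ∣ a → l ∣ a + K * b → False := by
          intro h1 h2
          have h3 : l ∣ K * b := (Nat.dvd_add_right h1).1 h2
          exact hab ⟨h1, hbK h3⟩
        have hbu : l ∣ b → l ∣ a - K * b → False := by
          intro h1 h2
          have h3 : l ∣ a := by
            have := dvd_add h2 (Dvd.dvd.mul_left h1 K)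
            have e : a - K * b + K * b = a := by omega
            rwa [e] at this
          exact hab ⟨h3, h1⟩
        have hbv : l ∣ b → l ∣ a + K * b → False := by
          intro h1 h2
          have h3 : l ∣ a := (Nat.dvd_add_left (Dvd.dvd.mul_left h1 K)).1 h2
          exact hab ⟨h3, h1⟩
        have huv : l ∣ a - K * b → l ∣ a + K * b → False := by
          intro h1 h2
          have h3 : l ∣ 2 * (K * b) := by
            have := Nat.dvd_sub h2 h1
            have e : a + K * b - (a - K * b) = 2 * (K * b) := by omega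
            rwa [e] at this
          have h4 : l ∣ K * b := by
            rcases (hl.dvd_mul).1 h3 with h | h
            · exact absurd ((Nat.prime_dvd_prime_iff_eq hl Nat.prime_two).1 h) hl2
            · exact h
          exact hbu (hbK h4) h1
        have hne := hD2 l hl hlM
        rw [not_or, not_or, not_or] at hne
        obtain ⟨n1, n2, n3, n4⟩ := hne
        rw [sq] at n1 n2 n3 n4
        rw [hFfac] at hFl
        rcases sq_dvd_mul hl hFl (by
          rintro ⟨h1, h2⟩
          rcases (hl.dvd_mul).1 h1 with h1 | h1 <;> rcases (hl.dvd_mul).1 h2 with h2 | h2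
          · exact hau h1 h2
          · exact hav h1 h2
          · exact hbu h1 h2
          · exact hbv h1 h2) with h | h
        · rcases sq_dvd_mul hl h hab with h | h
          · exact n1 h
          · exact n2 h
        · rcases sq_dvd_mul hl h (fun hh => huv hh.1 hh.2) with h | h
          · exact n3 h
          · exact n4 h
  · rw [hval]
    exact Nat.ModEq.mul_left' g hmod
  · rw [hval]
    have hcQ : (c : ℚ) ≠ 0 := by exact_mod_cast hc.ne'
    have hcpos : (0 : ℚ) < c := by exact_mod_cast hc
    have hapos : (0 : ℚ) < a := by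
      have : 0 < a := by omega
      exact_mod_cast this
    have hbpos : (0 : ℚ) < b := by exact_mod_cast hx2
    have hKpos : (0 : ℚ) < K := by exact_mod_cast Nat.pos_of_ne_zero hk0
    have hlt : (K : ℚ) * b < a := by exact_mod_cast hx1
    have hKQ : (K : ℚ) = (c : ℚ) ^ 2 * g := by
      rw [hK]; push_cast; ring
    refine ⟨((a : ℚ) ^ 2 - (K : ℚ) ^ 2 * b ^ 2) / c, 2 * a * K * b / c,
      ((a : ℚ) ^ 2 + (K : ℚ) ^ 2 * b ^ 2) / c, ?_, ?_, ?_, ?_, ?_⟩
    · apply div_pos _ hcpos
      have : ((K : ℚ) * b) ^ 2 < (a : ℚ) ^ 2 := by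
        apply pow_lt_pow_left₀ hlt (by positivity) (by norm_num)
      nlinarith
    · positivity
    · positivity
    · field_simp
      ring
    · rw [hFn]
      push_cast [Nat.cast_sub hle]
      have e1 : ((a : ℚ) ^ 2 - (K : ℚ) ^ 2 * b ^ 2) / c * (2 * a * K * b / c) / 2 =
        (a * b * ((a : ℚ) ^ 2 - (K : ℚ) ^ 2 * b ^ 2)) * (K / c ^ 2) := by
        field_simp
      rw [e1]
      have e2 : (K : ℚ) / c ^ 2 = g := by
        rw [hKQ]; field_simp
      rw [e2]; ring

end Pool.Agent.Y447.LN.Good
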