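import Mathlib
import Pool.Agent.Y675.LN.Stm

set_option autoImplicit false
set_option linter.all false

/-! # Y675-LN HENSEL -/

namespace Pool.Agent.Y447.LN.Hensel

open Pool.Agent.Y675.LN

theorem mem_S_iff (k A N : ℕ) (a b : ℤ) :
    (((a : ZMod N), (b : ZMod N)) ∈ S k A N) ↔
      ((N : ℤ) ∣ F (k : ℤ) a b - A ∧ IsCoprime (N : ℤ) (E (k : ℤ) a b)) := by
  have hF : F (k : ZMod N) (a : ZMod N) (b : ZMod N) = ((F (k : ℤ) a b : ℤ) : ZMod N) := by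
    simp only [F]; push_cast; ring
  have hE : E (k : ZMod N) (a : ZMod N) (b : ZMod N) = ((E (k : ℤ) a b : ℤ) : ZMod N) := by
    simp only [E]; push_cast; ring
  unfold S
  change (F (k : ZMod N) (a : ZMod N) (b : ZMod N) = (A : ZMod N) ∧
    IsUnit (E (k : ZMod N) (a : ZMod N) (b : ZMod N))) ↔ _
  rw [hF, hE]
  constructor
  · rintro ⟨h1, h2⟩
    refine ⟨?_, ?_⟩
    · have h3 : ((F (k : ℤ) a b : ℤ) : ZMod N) = ((A : ℤ) : ZMod N) := by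
        rw [h1]; push_cast; rfl
      rw [ZMod.intCast_eq_intCast_iff_dvd_sub] at h3
      have := (dvd_neg.mpr h3)
      simpa using this
    · exact (ZMod.coe_int_isUnit_iff_isCoprime _ _).1 h2
  · rintro ⟨h1, h2⟩
    refine ⟨?_, ?_⟩
    · have h3 : ((F (k : ℤ) a b : ℤ) : ZMod N) = ((A : ℤ) : ZMod N) := by
        rw [ZMod.intCast_eq_intCast_iff_dvd_sub]
        have := (dvd_neg.mpr h1)
        simpa using this
      rw [h3]; push_cast; rfl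
    · exact (ZMod.coe_int_isUnit_iff_isCoprime _ _).2 h2

/-- congruent arguments have congruent `E` -/
theorem E_congr (k a b a' b' N : ℤ) (ha : N ∣ a' - a) (hb : N ∣ b' - b) :
    N ∣ E k a' b' - E k a b := by
  obtain ⟨u, hu⟩ := ha
  obtain ⟨v, hv⟩ := hb
  have ha' : a' ≡ a [ZMOD N] := (Int.modEq_iff_dvd.2 ⟨-u, by linarith⟩)
  have hb' : b' ≡ b [ZMOD N] := (Int.modEq_iff_dvd.2 ⟨-v, by linarith⟩)
  have : E k a' b' ≡ E k a b [ZMOD N] := by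
    unfold E
    gcongr
  have h2 := this.symm
  exact Int.modEq_iff_dvd.1 h2

theorem F_congr (k a b a' b' N : ℤ) (ha : N ∣ a' - a) (hb : N ∣ b' - b) :
    N ∣ F k a' b' - F k a b := by
  obtain ⟨u, hu⟩ := ha
  obtain ⟨v, hv⟩ := hb
  have ha' : a' ≡ a [ZMOD N] := (Int.modEq_iff_dvd.2 ⟨-u, by linarith⟩)
  have hb' : b' ≡ b [ZMOD N] := (Int.modEq_iff_dvd.2 ⟨-v, by linarith⟩)
  have : F k a' b' ≡ F k a b [ZMOD N] := by
    unfold F
    gcongr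
  have h2 := this.symm
  exact Int.modEq_iff_dvd.1 h2

theorem lift (k A p n : ℕ) (hp : p.Prime) (hn : 1 ≤ n) (a b a0 : ℤ)
    (ha : ((p : ℤ) ^ n) ∣ a - a0)
    (h : ((((p ^ n : ℕ) : ℤ)) ∣ F (k : ℤ) a0 b - A ∧
      IsCoprime (((p ^ n : ℕ) : ℤ)) (E (k : ℤ) a0 b))) :
    ∃ t : ℤ, ((((p ^ (n + 1) : ℕ) : ℤ)) ∣ F (k : ℤ) a (b + (p : ℤ) ^ n * t) - A ∧
      IsCoprime (((p ^ (n + 1) : ℕ) : ℤ)) (E (k : ℤ) a (b + (p : ℤ) ^ n * t))) := by
  push_cast at h ⊢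
  obtain ⟨h1, h2⟩ := h
  have hFc : ((p : ℤ) ^ n) ∣ F (k : ℤ) a b - F (k : ℤ) a0 b :=
    F_congr _ _ _ _ _ _ ha (by simp)
  have hF : ((p : ℤ) ^ n) ∣ F (k : ℤ) a b - A := by
    have := dvd_add hFc h1
    simpa using this
  obtain ⟨r, hr⟩ := hF
  have hpn : (p : ℤ) ∣ (p : ℤ) ^ n := dvd_pow_self _ (by omega)
  have hpE0 : IsCoprime (p : ℤ) (E (k : ℤ) a0 b) :=
    IsCoprime.of_isCoprime_of_dvd_left h2 hpn
  have hEu : ∀ t : ℤ, IsCoprime (p : ℤ) (E (k : ℤ) a (b + (p : ℤ) ^ n * t)) := by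
    intro t
    have hd : (p : ℤ) ∣ E (k : ℤ) a (b + (p : ℤ) ^ n * t) - E (k : ℤ) a0 b := by
      refine E_congr _ _ _ _ _ _ (hpn.trans ha) ?_
      have : b + (p : ℤ) ^ n * t - b = (p : ℤ) ^ n * t := by ring
      rw [this]
      exact Dvd.dvd.mul_right hpn t
    obtain ⟨s, hs⟩ := hd
    have : E (k : ℤ) a (b + (p : ℤ) ^ n * t) = E (k : ℤ) a0 b + (p : ℤ) * s := by linarith
    rw [this]
    exact IsCoprime.add_mul_left_right hpE0 s
  have hD : IsCoprime (p : ℤ) (a * (a ^ 2 - 27 * (k : ℤ) ^ 2 * b ^ 2)) := by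
    have h0 := hEu 0
    rw [mul_zero, add_zero] at h0
    refine IsCoprime.of_isCoprime_of_dvd_right h0 ?_
    unfold E
    refine ⟨b * (a ^ 2 - 3 * (k : ℤ) ^ 2 * b ^ 2) *
      (a ^ 2 + 12 * k * a * b + 9 * (k : ℤ) ^ 2 * b ^ 2) *
      (a ^ 2 - 12 * k * a * b + 9 * (k : ℤ) ^ 2 * b ^ 2), ?_⟩
    ring
  obtain ⟨u, v, huv⟩ := hD
  -- u * p + v * D = 1
  refine ⟨-r * v, ?_, ?_⟩
  · have h2n : (p : ℤ) ^ (n + 1) ∣ (p : ℤ) ^ n * (p : ℤ) ^ n := by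
      rw [← pow_add]
      exact pow_dvd_pow _ (by omega)
    obtain ⟨w, hw⟩ := h2n
    have key : F (k : ℤ) a (b + (p : ℤ) ^ n * (-r * v)) - A =
        (F (k : ℤ) a b - A) + (p : ℤ) ^ n * (-r * v) * (a * (a ^ 2 - 27 * (k : ℤ) ^ 2 * b ^ 2))
        + ((p : ℤ) ^ n * (p : ℤ) ^ n) * (- 27 * (k : ℤ) ^ 2 * a * b * (-r * v) ^ 2
          - 9 * (k : ℤ) ^ 2 * a * (-r * v) ^ 3 * (p : ℤ) ^ n) := by
      unfold F; ring
    rw [key, hr, hw]
    have hvD : v * (a * (a ^ 2 - 27 * (k : ℤ) ^ 2 * b ^ 2)) = 1 - u * p := by linarith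
    have e1 : (p : ℤ) ^ n * r + (p : ℤ) ^ n * (-r * v) * (a * (a ^ 2 - 27 * (k : ℤ) ^ 2 * b ^ 2)) =
        (p : ℤ) ^ (n + 1) * (r * u) := by
      have : (p : ℤ) ^ n * r + (p : ℤ) ^ n * (-r * v) * (a * (a ^ 2 - 27 * (k : ℤ) ^ 2 * b ^ 2)) =
        (p : ℤ) ^ n * r - (p : ℤ) ^ n * r * (v * (a * (a ^ 2 - 27 * (k : ℤ) ^ 2 * b ^ 2))) := by
        ring
      rw [this, hvD, pow_succ]; ring
    rw [e1]
    refine dvd_add (Dvd.intro _ rfl) ?_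
    rw [mul_assoc]
    exact Dvd.intro _ rfl
  · exact IsCoprime.pow_left (hEu _)

theorem step (k A p n : ℕ) (hp : p.Prime) (hn : 1 ≤ n) :
    p * (S k A (p ^ n)).ncard ≤ (S k A (p ^ (n + 1))).ncard := by
  haveI : Fact p.Prime := ⟨hp⟩
  haveI : NeZero (p ^ n) := ⟨pow_ne_zero _ hp.ne_zero⟩
  haveI : NeZero (p ^ (n + 1)) := ⟨pow_ne_zero _ hp.ne_zero⟩
  have hex : ∀ (x : ZMod (p ^ n) × ZMod (p ^ n)) (j : Fin p), ∃ t : ℤ, x ∈ S k A (p ^ n) →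
      ((((x.1.val : ℤ) + (p : ℤ) ^ n * (j : ℕ) : ℤ) : ZMod (p ^ (n + 1))),
        (((x.2.val : ℤ) + (p : ℤ) ^ n * t : ℤ) : ZMod (p ^ (n + 1)))) ∈ S k A (p ^ (n + 1)) := by
    intro x j
    by_cases hx : x ∈ S k A (p ^ n)
    · have hx' : (((x.1.val : ℤ) : ZMod (p ^ n)), ((x.2.val : ℤ) : ZMod (p ^ n))) ∈
          S k A (p ^ n) := by
        have e1 : ((x.1.val : ℤ) : ZMod (p ^ n)) = x.1 := by
          push_cast; exact ZMod.natCast_zmod_val _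
        have e2 : ((x.2.val : ℤ) : ZMod (p ^ n)) = x.2 := by
          push_cast; exact ZMod.natCast_zmod_val _
        rw [e1, e2]; exact hx
      have h := (mem_S_iff k A (p ^ n) _ _).1 hx'
      obtain ⟨t, ht⟩ := lift k A p n hp hn ((x.1.val : ℤ) + (p : ℤ) ^ n * (j : ℕ)) (x.2.val : ℤ)
        (x.1.val : ℤ) ⟨(j : ℕ), by ring⟩ h
      exact ⟨t, fun _ => (mem_S_iff k A (p ^ (n + 1)) _ _).2 ht⟩
    · exact ⟨0, fun h => absurd h hx⟩
  choose T hT using hex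
  have hcard : p * (S k A (p ^ n)).ncard =
      ((S k A (p ^ n)) ×ˢ (Set.univ : Set (Fin p))).ncard := by
    rw [Set.ncard_prod, Set.ncard_univ, Nat.card_fin, mul_comm]
  rw [hcard]
  refine Set.ncard_le_ncard_of_injOn
    (fun y : (ZMod (p ^ n) × ZMod (p ^ n)) × Fin p =>
      ((((y.1.1.val : ℤ) + (p : ℤ) ^ n * (y.2 : ℕ) : ℤ) : ZMod (p ^ (n + 1))),
        (((y.1.2.val : ℤ) + (p : ℤ) ^ n * (T y.1 y.2) : ℤ) : ZMod (p ^ (n + 1))))) ?_ ?_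
    (Set.toFinite _)
  · rintro ⟨x, j⟩ ⟨hx, _⟩
    exact hT x j hx
  · rintro ⟨x, j⟩ ⟨hx, _⟩ ⟨x', j'⟩ ⟨hx', _⟩ heq
    simp only [Prod.mk.injEq] at heq
    obtain ⟨h1, h2⟩ := heq
    have hlt : ∀ (y : ZMod (p ^ n)) (i : Fin p), y.val + p ^ n * (i : ℕ) < p ^ (n + 1) := by
      intro y i
      have h3 : y.val < p ^ n := ZMod.val_lt y
      have h4 : (i : ℕ) + 1 ≤ p := i.2
      calc y.val + p ^ n * (i : ℕ) < p ^ n + p ^ n * (i : ℕ) := by omega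
        _ = p ^ n * ((i : ℕ) + 1) := by ring
        _ ≤ p ^ n * p := Nat.mul_le_mul_left _ h4
        _ = p ^ (n + 1) := by rw [pow_succ]
    have h1' : (((x.1.val + p ^ n * (j : ℕ) : ℕ)) : ZMod (p ^ (n + 1))) =
        (((x'.1.val + p ^ n * (j' : ℕ) : ℕ)) : ZMod (p ^ (n + 1))) := by
      push_cast at h1 ⊢; exact h1
    rw [ZMod.natCast_eq_natCast_iff'] at h1'
    rw [Nat.mod_eq_of_lt (hlt _ _), Nat.mod_eq_of_lt (hlt _ _)] at h1'
    have hv : x.1.val = x'.1.val := by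
      have h3 : (x.1.val + p ^ n * (j : ℕ)) % p ^ n = (x'.1.val + p ^ n * (j' : ℕ)) % p ^ n := by
        rw [h1']
      rwa [Nat.add_mul_mod_self_left, Nat.add_mul_mod_self_left,
        Nat.mod_eq_of_lt (ZMod.val_lt _), Nat.mod_eq_of_lt (ZMod.val_lt _)] at h3
    have hj : (j : ℕ) = (j' : ℕ) := by
      rw [hv] at h1'
      have h3 : p ^ n * (j : ℕ) = p ^ n * (j' : ℕ) := by omega
      exact Nat.eq_of_mul_eq_mul_left (Nat.pos_of_ne_zero (NeZero.ne (p ^ n))) h3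
    have hx1 : x.1 = x'.1 := ZMod.val_injective _ hv
    have hx2 : x.2 = x'.2 := by
      rw [ZMod.intCast_eq_intCast_iff_dvd_sub] at h2
      have h3 : ((p : ℤ) ^ n) ∣ ((x'.2.val : ℤ) + (p : ℤ) ^ n * (T x' j')) -
          ((x.2.val : ℤ) + (p : ℤ) ^ n * (T x j)) := by
        refine dvd_trans ?_ h2
        push_cast
        exact pow_dvd_pow _ (by omega)
      have h4 : ((p : ℤ) ^ n) ∣ (x'.2.val : ℤ) - (x.2.val : ℤ) := by
        obtain ⟨s, hs⟩ := h3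
        exact ⟨s - T x' j' + T x j, by linear_combination hs⟩
      have h5 : ((x.2.val : ℤ) : ZMod (p ^ n)) = ((x'.2.val : ℤ) : ZMod (p ^ n)) := by
        rw [ZMod.intCast_eq_intCast_iff_dvd_sub]
        push_cast
        exact h4
      push_cast at h5
      rwa [ZMod.natCast_zmod_val, ZMod.natCast_zmod_val] at h5
    have hxx : x = x' := Prod.ext hx1 hx2
    have hjj : j = j' := Fin.ext hj
    rw [hxx, hjj]

theorem t : S_HENSEL := by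
  intro k A p n hp hn
  obtain ⟨m, rfl⟩ : ∃ m, n = m + 1 := ⟨n - 1, by omega⟩
  rw [Nat.add_sub_cancel]
  clear hn
  induction m with
  | zero =>
    rw [zero_add, pow_one, pow_zero, one_mul]
  | succ m ih =>
    calc p ^ (m + 1) * (S k A p).ncard = p * (p ^ m * (S k A p).ncard) := by ring
      _ ≤ p * (S k A (p ^ (m + 1))).ncard := Nat.mul_le_mul_left _ ih
      _ ≤ _ := step k A p (m + 1) hp (by omega)

end Pool.Agent.Y447.LN.Hensel
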