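import Mathlib
import Pool.Agent.Y675.LN.Stm

set_option autoImplicit false
set_option linter.all false

/-! # Y675-LN LOC -/

namespace Pool.Agent.Y447.LN.Loc

open Pool.Agent.Y675.LN Polynomial

theorem bad_le {p : ℕ} [Fact p.Prime] (k A : ZMod p) (hA : A ≠ 0) (c d : ZMod p) :
    ({x : ZMod p × ZMod p | F k x.1 x.2 = A ∧ x.1 ^ 2 + c * x.1 * x.2 + d * x.2 ^ 2 = 0}).ncard
      ≤ 8 := by
  classical
  set q : (ZMod p)[X] := X ^ 2 + C c * X + C d with hq
  have hqdeg : q.natDegree = 2 := by
    rw [hq]; compute_degree!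
  have hq0 : q ≠ 0 := by
    intro h
    rw [h] at hqdeg
    simp at hqdeg
  set Q : ZMod p → (ZMod p)[X] := fun t => C (t * (t ^ 2 - (3 * k) ^ 2)) * X ^ 4 - C A with hQ
  have hQdeg : ∀ t, (Q t).natDegree ≤ 4 := by
    intro t
    have hdeg : ∀ e : ZMod p, (C e * X ^ 4 - C A).natDegree ≤ 4 := fun e => by compute_degree
    exact hdeg _
  have hQ0 : ∀ t, Q t ≠ 0 := by
    intro t h
    have h1 := congrArg (Polynomial.eval 0) h
    simp [hQ] at h1
    exact hA h1
  set R : Finset (ZMod p × ZMod p) := q.roots.toFinset.biUnion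
    (fun t => (Q t).roots.toFinset.image (fun b => (t * b, b))) with hR
  have hcard : R.card ≤ 8 := by
    have h1 : R.card ≤ q.roots.toFinset.card * 4 := by
      apply Finset.card_biUnion_le_card_mul
      intro t _
      calc _ ≤ (Q t).roots.toFinset.card := Finset.card_image_le
        _ ≤ (Q t).roots.card := Multiset.toFinset_card_le _
        _ ≤ (Q t).natDegree := Polynomial.card_roots' _
        _ ≤ 4 := hQdeg t
    have h2 : q.roots.toFinset.card ≤ 2 := by
      calc _ ≤ q.roots.card := Multiset.toFinset_card_le _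
        _ ≤ q.natDegree := Polynomial.card_roots' _
        _ = 2 := hqdeg
    omega
  have hsub : {x : ZMod p × ZMod p | F k x.1 x.2 = A ∧
      x.1 ^ 2 + c * x.1 * x.2 + d * x.2 ^ 2 = 0} ⊆ (R : Set (ZMod p × ZMod p)) := by
    rintro ⟨a, b⟩ ⟨h1, h2⟩
    simp only [F] at h1 h2
    have hb : b ≠ 0 := by
      rintro rfl
      apply hA; rw [← h1]; ring
    rw [Finset.mem_coe, hR, Finset.mem_biUnion]
    refine ⟨a / b, ?_, ?_⟩
    · rw [Multiset.mem_toFinset, Polynomial.mem_roots hq0, Polynomial.IsRoot, hq]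
      simp only [eval_add, eval_mul, eval_pow, eval_X, eval_C]
      field_simp
      linear_combination h2
    · rw [Finset.mem_image]
      refine ⟨b, ?_, ?_⟩
      · rw [Multiset.mem_toFinset, Polynomial.mem_roots (hQ0 _), Polynomial.IsRoot]
        simp only [hQ, eval_sub, eval_mul, eval_pow, eval_X, eval_C]
        field_simp
        linear_combination h1
      · rw [div_mul_cancel₀ _ hb]
  calc _ ≤ ((R : Set (ZMod p × ZMod p))).ncard := Set.ncard_le_ncard hsub (Set.toFinite _)
    _ = R.card := Set.ncard_coe_finset _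
    _ ≤ 8 := hcard

theorem t (h : S_CURVE) : S_LOC := by
  intro k A p hp hc hA
  haveI : Fact p.Prime := ⟨hp⟩
  have hA0 : (A : ZMod p) ≠ 0 := by
    rw [Ne, ZMod.natCast_eq_zero_iff]
    exact hA
  by_cases hpk : p ∣ 3 * k
  · have hK0 : (3 : ZMod p) * (k : ZMod p) = 0 := by
      have := (ZMod.natCast_eq_zero_iff (3 * k) p).2 hpk
      push_cast at this
      exact this
    have h1 : ({0}ᶜ : Set (ZMod p)).ncard = p - 1 := by
      rw [Set.ncard_compl, Nat.card_zmod, Set.ncard_singleton]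
    have h2 : ({0}ᶜ : Set (ZMod p)).ncard ≤ (S k A p).ncard := by
      refine Set.ncard_le_ncard_of_injOn (fun a : ZMod p => (a, (A : ZMod p) * (a⁻¹) ^ 3)) ?_ ?_
        (Set.toFinite _)
      · intro a ha
        have ha0 : a ≠ 0 := ha
        have e27 : ∀ b : ZMod p, (27 : ZMod p) * (k : ZMod p) ^ 2 * b ^ 2 = 0 := fun b => by
          linear_combination (9 * (k : ZMod p) * b ^ 2) * hK0
        have e3 : ∀ b : ZMod p, (3 : ZMod p) * (k : ZMod p) ^ 2 * b ^ 2 = 0 := fun b => by
          linear_combination ((k : ZMod p) * b ^ 2) * hK0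
        have e9 : ∀ b : ZMod p, (9 : ZMod p) * (k : ZMod p) ^ 2 * b ^ 2 = 0 := fun b => by
          linear_combination (3 * (k : ZMod p) * b ^ 2) * hK0
        have e12 : ∀ b : ZMod p, (12 : ZMod p) * (k : ZMod p) * a * b = 0 := fun b => by
          linear_combination (4 * a * b) * hK0
        refine ⟨?_, ?_⟩
        · simp only [F]
          rw [hK0]
          field_simp
          ring
        · simp only [E]
          rw [e27, e3, e9, e12, isUnit_iff_ne_zero]
          simp only [sub_zero, add_zero]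
          have : (A : ZMod p) * a⁻¹ ^ 3 ≠ 0 := mul_ne_zero hA0 (pow_ne_zero _ (inv_ne_zero ha0))
          have h5 : a ^ 2 ≠ 0 := pow_ne_zero _ ha0
          exact mul_ne_zero (mul_ne_zero (mul_ne_zero (mul_ne_zero (mul_ne_zero ha0 this) h5) h5)
            h5) h5
      · intro a _ b _ hab
        exact (Prod.mk.inj hab).1
    have h3 := hp.two_le
    omega
  · have hp1000 : 1000 < p := by
      rcases hc with hc | hc
      · exact absurd hc hpk
      · exact hc
    have hK0 : (3 : ZMod p) * (k : ZMod p) ≠ 0 := by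
      intro h0
      apply hpk
      rw [← ZMod.natCast_eq_zero_iff]
      push_cast
      exact h0
    set K : ZMod p := 3 * (k : ZMod p) with hK
    set T : Set (ZMod p × ZMod p) := {x | F (k : ZMod p) x.1 x.2 = (A : ZMod p)} with hT
    have hB := h p hp (K * A) (mul_ne_zero hK0 hA0)
    have h1 : ({x : ZMod p × ZMod p | x.1 * x.2 * (x.1 ^ 2 - x.2 ^ 2) = K * A}).ncard ≤
        T.ncard := by
      refine Set.ncard_le_ncard_of_injOn (fun x : ZMod p × ZMod p => (x.1, K⁻¹ * x.2)) ?_ ?_
        (Set.toFinite _)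
      · rintro ⟨u, v⟩ huv
        have huv' : u * v * (u ^ 2 - v ^ 2) = K * A := huv
        change F (k : ZMod p) u (K⁻¹ * v) = (A : ZMod p)
        simp only [F, ← hK]
        field_simp
        linear_combination huv'
      · rintro ⟨u, v⟩ _ ⟨u', v'⟩ _ he
        simp only [Prod.mk.injEq] at he
        obtain ⟨e1, e2⟩ := he
        have e3 : v = v' := mul_left_cancel₀ (inv_ne_zero hK0) e2
        rw [e1, e3]
    let B : ZMod p → ZMod p → Set (ZMod p × ZMod p) := fun c d =>
      {x : ZMod p × ZMod p | F (k : ZMod p) x.1 x.2 = (A : ZMod p) ∧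
        x.1 ^ 2 + c * x.1 * x.2 + d * x.2 ^ 2 = 0}
    have hBle : ∀ c d, (B c d).ncard ≤ 8 := fun c d => bad_le _ _ hA0 c d
    have hsub : T ⊆ S k A p ∪ ((B 0 (-27 * (k : ZMod p) ^ 2) ∪ B 0 (-3 * (k : ZMod p) ^ 2)) ∪
        (B (12 * k) (9 * (k : ZMod p) ^ 2) ∪ B (-12 * k) (9 * (k : ZMod p) ^ 2))) := by
      rintro ⟨a, b⟩ hx
      have hx' : F (k : ZMod p) a b = (A : ZMod p) := hx
      by_cases hE : E (k : ZMod p) a b = 0
      · right
        have hF : a * b * (a ^ 2 - (3 * (k : ZMod p)) ^ 2 * b ^ 2) = (A : ZMod p) := hx'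
        have hab : a * b ≠ 0 := by
          intro h0
          apply hA0
          rw [← hF, h0, zero_mul]
        have hE' : a * b * (a ^ 2 - 27 * (k : ZMod p) ^ 2 * b ^ 2) *
          (a ^ 2 - 3 * (k : ZMod p) ^ 2 * b ^ 2) *
          (a ^ 2 + 12 * (k : ZMod p) * a * b + 9 * (k : ZMod p) ^ 2 * b ^ 2) *
          (a ^ 2 - 12 * (k : ZMod p) * a * b + 9 * (k : ZMod p) ^ 2 * b ^ 2) = 0 := hE
        rcases mul_eq_zero.1 hE' with h2 | h2
        · rcases mul_eq_zero.1 h2 with h2 | h2
          · rcases mul_eq_zero.1 h2 with h2 | h2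
            · rcases mul_eq_zero.1 h2 with h2 | h2
              · exact absurd h2 hab
              · left; left
                refine ⟨hx', ?_⟩
                change a ^ 2 + 0 * a * b + -27 * (k : ZMod p) ^ 2 * b ^ 2 = 0
                linear_combination h2
            · left; right
              refine ⟨hx', ?_⟩
              change a ^ 2 + 0 * a * b + -3 * (k : ZMod p) ^ 2 * b ^ 2 = 0
              linear_combination h2
          · right; left
            refine ⟨hx', ?_⟩
            change a ^ 2 + 12 * (k : ZMod p) * a * b + 9 * (k : ZMod p) ^ 2 * b ^ 2 = 0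
            linear_combination h2
        · right; right
          refine ⟨hx', ?_⟩
          change a ^ 2 + -12 * (k : ZMod p) * a * b + 9 * (k : ZMod p) ^ 2 * b ^ 2 = 0
          linear_combination h2
      · left
        exact ⟨hx', isUnit_iff_ne_zero.2 hE⟩
    have hle : T.ncard ≤ (S k A p).ncard + 32 := by
      have a1 := Set.ncard_le_ncard hsub (Set.toFinite _)
      have a2 := Set.ncard_union_le (S k A p) ((B 0 (-27 * (k : ZMod p) ^ 2) ∪
        B 0 (-3 * (k : ZMod p) ^ 2)) ∪
        (B (12 * k) (9 * (k : ZMod p) ^ 2) ∪ B (-12 * k) (9 * (k : ZMod p) ^ 2)))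
      have a3 := Set.ncard_union_le (B 0 (-27 * (k : ZMod p) ^ 2) ∪ B 0 (-3 * (k : ZMod p) ^ 2))
        (B (12 * k) (9 * (k : ZMod p) ^ 2) ∪ B (-12 * k) (9 * (k : ZMod p) ^ 2))
      have a4 := Set.ncard_union_le (B 0 (-27 * (k : ZMod p) ^ 2)) (B 0 (-3 * (k : ZMod p) ^ 2))
      have a5 := Set.ncard_union_le (B (12 * k) (9 * (k : ZMod p) ^ 2))
        (B (-12 * k) (9 * (k : ZMod p) ^ 2))
      have b1 := hBle 0 (-27 * (k : ZMod p) ^ 2)
      have b2 := hBle 0 (-3 * (k : ZMod p) ^ 2)
      have b3 := hBle (12 * k) (9 * (k : ZMod p) ^ 2)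
      have b4 := hBle (-12 * k) (9 * (k : ZMod p) ^ 2)
      omega
    have hfin : (p : ℝ) - 3 - 7 * Real.sqrt p ≤ ((S k A p).ncard : ℝ) + 32 := by
      have c1 : ((({x : ZMod p × ZMod p | x.1 * x.2 * (x.1 ^ 2 - x.2 ^ 2) = K * A}).ncard : ℕ) : ℝ)
          ≤ ((S k A p).ncard : ℝ) + 32 := by
        exact_mod_cast h1.trans hle
      linarith
    have hs1 : Real.sqrt p * Real.sqrt p = p := Real.mul_self_sqrt (by positivity)
    have hs2 : (31 : ℝ) ≤ Real.sqrt p := by
      apply Real.le_sqrt_of_sq_le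
      have : (1000 : ℝ) < p := by exact_mod_cast hp1000
      norm_num; linarith
    have hgoal : (p : ℝ) ≤ 2 * ((S k A p).ncard : ℝ) := by nlinarith
    exact_mod_cast hgoal

end Pool.Agent.Y447.LN.Loc
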